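import Pool.Agent.Helper32.OIP.Goals

/-!
# E9: submodularity of finite entropy
-/

namespace Pool.Agent.Helper73.OIP

open MeasureTheory Pool.Agent.Helper32.OIP Pool.Agent.Helper58.Orb

open scoped Classical in
/-- The finite inequality. -/
theorem finite_submod {M M' M'' : Type} [Fintype M] [Fintype M'] [Fintype M'']
    (P : M × M' → ℝ) (a : M → ℝ) (b : M' → ℝ) (c : M'' → ℝ) (f : M → M'') (g : M' → M'')
    (hP : ∀ z, 0 ≤ P z) (ha : ∀ m, ∑ m', P (m, m') = a m) (hb : ∀ m', ∑ m, P (m, m') = b m')
    (hc : ∀ y, ∑ m, (if f m = y then a m else 0) = c y)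
    (hfg : ∀ m m', P (m, m') ≠ 0 → f m = g m') :
    ∑ z, Real.negMulLog (P z) ≤
      ∑ m, Real.negMulLog (a m) + ∑ m', Real.negMulLog (b m') - ∑ y, Real.negMulLog (c y) := by
  have ha0 : ∀ m, 0 ≤ a m := fun m => by
    rw [← ha m]; exact Finset.sum_nonneg fun m' _ => hP _
  have hb0 : ∀ m', 0 ≤ b m' := fun m' => by
    rw [← hb m']; exact Finset.sum_nonneg fun m _ => hP _
  have hc0 : ∀ y, 0 ≤ c y := fun y => by
    rw [← hc y]
    refine Finset.sum_nonneg fun m _ => ?_
    split_ifs
    · exact ha0 m
    · exact le_rfl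
  have hPa : ∀ m m', P (m, m') ≤ a m := fun m m' => by
    rw [← ha m]
    exact Finset.single_le_sum (f := fun m' => P (m, m')) (fun m' _ => hP _) (Finset.mem_univ m')
  have hPb : ∀ m m', P (m, m') ≤ b m' := fun m m' => by
    rw [← hb m']
    exact Finset.single_le_sum (f := fun m => P (m, m')) (fun m _ => hP _) (Finset.mem_univ m)
  have hac : ∀ m, a m ≤ c (f m) := fun m => by
    rw [← hc (f m)]
    have h := Finset.single_le_sum (f := fun m₁ => if f m₁ = f m then a m₁ else 0)
      (fun m₁ _ => by
        show (0 : ℝ) ≤ if f m₁ = f m then a m₁ else 0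
        split_ifs
        · exact ha0 m₁
        · exact le_rfl) (Finset.mem_univ m)
    simpa using h
  -- the second formula for `c`
  have hc' : ∀ y, ∑ m', (if g m' = y then b m' else 0) = c y := by
    intro y
    rw [← hc y]
    have h1 : ∀ m', (if g m' = y then b m' else 0)
        = ∑ m, (if g m' = y then P (m, m') else 0) := fun m' => by
      split_ifs
      · exact (hb m').symm
      · simp
    have h2 : ∀ m, (if f m = y then a m else 0)
        = ∑ m', (if f m = y then P (m, m') else 0) := fun m => by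
      split_ifs
      · exact (ha m).symm
      · simp
    simp only [h1, h2]
    rw [Finset.sum_comm]
    refine Finset.sum_congr rfl fun m _ => Finset.sum_congr rfl fun m' _ => ?_
    by_cases hz : P (m, m') = 0
    · simp [hz]
    · rw [hfg m m' hz]
  -- pointwise inequality
  have hpt : ∀ m m', Real.negMulLog (P (m, m')) ≤
      (-(P (m, m') * Real.log (a m)) + -(P (m, m') * Real.log (b m'))
        + P (m, m') * Real.log (c (f m)))
        + ((if f m = g m' then a m * b m' / c (f m) else 0) - P (m, m')) := by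
    intro m m'
    rcases eq_or_lt_of_le (hP (m, m')) with h0 | hpos
    · rw [← h0]
      simp only [Real.negMulLog_zero, zero_mul, neg_zero, add_zero, zero_add, sub_zero]
      split_ifs
      · exact div_nonneg (mul_nonneg (ha0 m) (hb0 m')) (hc0 _)
      · exact le_rfl
    · have hap : 0 < a m := lt_of_lt_of_le hpos (hPa m m')
      have hbp : 0 < b m' := lt_of_lt_of_le hpos (hPb m m')
      have hcp : 0 < c (f m) := lt_of_lt_of_le hap (hac m)
      rw [if_pos (hfg m m' hpos.ne')]
      have hu : 0 < a m * b m' / (c (f m) * P (m, m')) := by positivity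
      have hlog := Real.log_le_sub_one_of_pos hu
      rw [Real.log_div (by positivity) (by positivity), Real.log_mul hap.ne' hbp.ne',
        Real.log_mul hcp.ne' hpos.ne'] at hlog
      have hmul := mul_le_mul_of_nonneg_left hlog hpos.le
      have hq : P (m, m') * (a m * b m' / (c (f m) * P (m, m')) - 1)
          = a m * b m' / c (f m) - P (m, m') := by
        field_simp
      rw [hq] at hmul
      simp only [Real.negMulLog]
      nlinarith [hmul]
  -- sums
  have hsum : ∑ z, Real.negMulLog (P z) ≤ ∑ m, ∑ m',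
      ((-(P (m, m') * Real.log (a m)) + -(P (m, m') * Real.log (b m'))
        + P (m, m') * Real.log (c (f m)))
        + ((if f m = g m' then a m * b m' / c (f m) else 0) - P (m, m'))) := by
    rw [Fintype.sum_prod_type]
    exact Finset.sum_le_sum fun m _ => Finset.sum_le_sum fun m' _ => hpt m m'
  have e1 : ∑ m, ∑ m', -(P (m, m') * Real.log (a m)) = ∑ m, Real.negMulLog (a m) := by
    refine Finset.sum_congr rfl fun m _ => ?_
    rw [Finset.sum_neg_distrib, ← Finset.sum_mul, ha m]
    simp [Real.negMulLog]
  have e2 : ∑ m, ∑ m', -(P (m, m') * Real.log (b m')) = ∑ m', Real.negMulLog (b m') := by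
    rw [Finset.sum_comm]
    refine Finset.sum_congr rfl fun m' _ => ?_
    rw [Finset.sum_neg_distrib, ← Finset.sum_mul, hb m']
    simp [Real.negMulLog]
  have e3 : ∑ m, ∑ m', P (m, m') * Real.log (c (f m)) = - ∑ y, Real.negMulLog (c y) := by
    have h1 : ∀ m, ∑ m', P (m, m') * Real.log (c (f m)) = a m * Real.log (c (f m)) := fun m => by
      rw [← Finset.sum_mul, ha m]
    simp only [h1]
    have h2 : ∀ y, - Real.negMulLog (c y) = ∑ m, (if f m = y then a m * Real.log (c (f m)) else 0) := by
      intro y
      have h3 : ∀ m, (if f m = y then a m * Real.log (c (f m)) else 0)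
          = (if f m = y then a m else 0) * Real.log (c y) := fun m => by
        split_ifs with h
        · rw [h]
        · simp
      simp only [h3]
      rw [← Finset.sum_mul, hc y]
      simp [Real.negMulLog]
    rw [← Finset.sum_neg_distrib]
    simp only [h2]
    rw [Finset.sum_comm]
    refine Finset.sum_congr rfl fun m _ => ?_
    simp
  have e4 : ∑ m, ∑ m', ((if f m = g m' then a m * b m' / c (f m) else 0) - P (m, m')) ≤ 0 := by
    simp only [Finset.sum_sub_distrib]
    rw [sub_nonpos]
    refine Finset.sum_le_sum fun m _ => ?_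
    have h1 : ∀ m', (if f m = g m' then a m * b m' / c (f m) else 0)
        = (a m / c (f m)) * (if g m' = f m then b m' else 0) := fun m' => by
      by_cases h : f m = g m'
      · rw [if_pos h, if_pos h.symm]; ring
      · rw [if_neg h, if_neg (fun h' => h h'.symm)]; simp
    simp only [h1]
    rw [← Finset.mul_sum, hc' (f m), ha m]
    rcases eq_or_lt_of_le (hc0 (f m)) with h0 | hpos
    · rw [← h0]
      simpa using ha0 m
    · rw [div_mul_cancel₀ _ hpos.ne']
  have e5 : ∑ m, ∑ m',
      ((-(P (m, m') * Real.log (a m)) + -(P (m, m') * Real.log (b m'))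
        + P (m, m') * Real.log (c (f m)))
        + ((if f m = g m' then a m * b m' / c (f m) else 0) - P (m, m')))
      = (∑ m, ∑ m', -(P (m, m') * Real.log (a m))) + (∑ m, ∑ m', -(P (m, m') * Real.log (b m')))
        + (∑ m, ∑ m', P (m, m') * Real.log (c (f m)))
        + ∑ m, ∑ m', ((if f m = g m' then a m * b m' / c (f m) else 0) - P (m, m')) := by
    simp only [Finset.sum_add_distrib]
  rw [e5, e1, e2, e3] at hsum
  linarith

theorem e9 : GoalE9 := by
  classical
  intro Ω M M' M'' _ _ _ _ μ _ X X' Y f g hX hX' hYf hYg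
  have hYent : Ent μ Y = ∑ y, Real.negMulLog (μ.real {ω | f (X ω) = y}) := by
    unfold Ent
    refine Finset.sum_congr rfl fun y _ => ?_
    congr 1
    apply measureReal_congr
    filter_upwards [hYf] with ω hω
    show (Y ω = y) = (f (X ω) = y)
    rw [hω]
  rw [hYent]
  have hms : ∀ z : M × M', MeasurableSet {ω | (X ω, X' ω) = z} := by
    rintro ⟨m, m'⟩
    have : {ω | (X ω, X' ω) = (m, m')} = {ω | X ω = m} ∩ {ω | X' ω = m'} := by
      ext ω; simp
    rw [this]
    exact (hX m).inter (hX' m')
  refine finite_submod (fun z => μ.real {ω | (X ω, X' ω) = z}) (fun m => μ.real {ω | X ω = m})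
    (fun m' => μ.real {ω | X' ω = m'}) (fun y => μ.real {ω | f (X ω) = y}) f g
    (fun z => measureReal_nonneg) ?_ ?_ ?_ ?_
  · intro m
    have h1 : {ω | X ω = m} = ⋃ m' ∈ (Finset.univ : Finset M'), {ω | (X ω, X' ω) = (m, m')} := by
      ext ω; simp
    show ∑ m', μ.real {ω | (X ω, X' ω) = (m, m')} = μ.real {ω | X ω = m}
    rw [h1, measureReal_biUnion_finset]
    · intro i _ j _ hij
      refine Set.disjoint_left.mpr fun ω h₁ h₂ => hij ?_
      simp only [Set.mem_ofPred_eq, Prod.mk.injEq] at h₁ h₂
      exact h₁.2.symm.trans h₂.2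
    · intro m' _
      exact hms _
  · intro m'
    have h1 : {ω | X' ω = m'} = ⋃ m ∈ (Finset.univ : Finset M), {ω | (X ω, X' ω) = (m, m')} := by
      ext ω; simp
    show ∑ m, μ.real {ω | (X ω, X' ω) = (m, m')} = μ.real {ω | X' ω = m'}
    rw [h1, measureReal_biUnion_finset]
    · intro i _ j _ hij
      refine Set.disjoint_left.mpr fun ω h₁ h₂ => hij ?_
      simp only [Set.mem_ofPred_eq, Prod.mk.injEq] at h₁ h₂
      exact h₁.1.symm.trans h₂.1
    · intro m _
      exact hms _
  · intro y
    have h1 : {ω | f (X ω) = y}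
        = ⋃ m ∈ (Finset.univ.filter (fun m => f m = y) : Finset M), {ω | X ω = m} := by
      ext ω; simp
    show ∑ m, (if f m = y then μ.real {ω | X ω = m} else 0) = μ.real {ω | f (X ω) = y}
    rw [h1, measureReal_biUnion_finset, Finset.sum_filter]
    · intro i _ j _ hij
      refine Set.disjoint_left.mpr fun ω h₁ h₂ => hij ?_
      simp only [Set.mem_ofPred_eq] at h₁ h₂
      exact h₁.symm.trans h₂
    · intro m _
      exact hX m
  · intro m m' hne
    by_contra hfg
    apply hne
    show μ.real {ω | (X ω, X' ω) = (m, m')} = 0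
    have h0 : μ {ω | (X ω, X' ω) = (m, m')} = 0 := by
      have hae : ∀ᵐ ω ∂μ, ω ∉ {ω | (X ω, X' ω) = (m, m')} := by
        filter_upwards [hYf, hYg] with ω h₁ h₂ h₃
        simp only [Set.mem_ofPred_eq, Prod.mk.injEq] at h₃
        apply hfg
        rw [← h₃.1, ← h₃.2, ← h₁, ← h₂]
      simpa [ae_iff] using hae
    rw [measureReal_def, h0, ENNReal.toReal_zero]

end Pool.Agent.Helper73.OIP
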